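import Pool.Agent.H181R5.NLT.Stmts

set_option autoImplicit false

namespace Pool.Agent.H493R3.NL.Num2

open Finset Pool.Agent.H181R5.NLH Pool.Agent.H181R5.NLT

theorem result : TaskNum2 := by
  intro s hs
  obtain ⟨x, hx⟩ : ∃ x : ℝ, x = (s : ℝ) ^ (1 / 4 : ℝ) := ⟨_, rfl⟩
  have hx0 : 0 ≤ x := by
    rw [hx]
    exact Real.rpow_nonneg (Nat.cast_nonneg s) _
  have hx4 : x ^ 4 = (s : ℝ) := by
    rw [hx, ← Real.rpow_natCast, ← Real.rpow_mul (Nat.cast_nonneg s)]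
    norm_num
  rw [← hx]
  by_cases hx200 : x ≤ 200
  · left
    linarith
  · right
    push Not at hx200
    obtain ⟨r, hr⟩ : ∃ r : ℕ, r = ⌊x⌋₊ := ⟨_, rfl⟩
    have hr1 : (r : ℝ) ≤ x := by
      rw [hr]
      exact Nat.floor_le hx0
    have hr2 : x < (r : ℝ) + 1 := by
      rw [hr]
      exact Nat.lt_floor_add_one x
    have hr200 : 200 ≤ r := by
      rw [hr]
      exact Nat.le_floor (by exact_mod_cast hx200.le)
    have h4 : r ^ 4 ≤ s := by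
      have h : ((r : ℝ)) ^ 4 ≤ x ^ 4 := pow_le_pow_left₀ (Nat.cast_nonneg r) hr1 4
      rw [hx4] at h
      exact_mod_cast h
    have h5 : s < (r + 1) ^ 4 := by
      have h : x ^ 4 < ((r : ℝ) + 1) ^ 4 := pow_lt_pow_left₀ hr2 hx0 (by norm_num)
      rw [hx4] at h
      exact_mod_cast h
    have e3 : 200 * r ^ 3 ≤ r ^ 4 := by
      calc 200 * r ^ 3 ≤ r * r ^ 3 := Nat.mul_le_mul_right _ hr200
        _ = r ^ 4 := by ring
    have e2 : 200 * r ^ 2 ≤ r ^ 3 := by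
      calc 200 * r ^ 2 ≤ r * r ^ 2 := Nat.mul_le_mul_right _ hr200
        _ = r ^ 3 := by ring
    have e1 : 200 * r ≤ r ^ 2 := by
      calc 200 * r ≤ r * r := Nat.mul_le_mul_right _ hr200
        _ = r ^ 2 := by ring
    obtain ⟨h, hh⟩ : ∃ h : ℕ, h = r ^ 3 / 2 := ⟨_, rfl⟩
    have hh1 : r ^ 3 ≤ 2 * h + 1 := by omega
    obtain ⟨m, hm⟩ : ∃ m : ℕ, m = r / 4 := ⟨_, rfl⟩
    have hm1 : 4 * m ≤ r := by omega
    have hm2 : r < 4 * m + 4 := by omega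
    refine ⟨r ^ 3, 3 * r, m, ?_, ?_, ?_, ?_, ?_⟩
    · calc (r ^ 3) ^ 4 = (r ^ 4) ^ 3 := by ring
        _ ≤ s ^ 3 := Nat.pow_le_pow_left h4 3
    · rw [← hh]
      have h6 : r ^ 3 * (3 * r) ≤ (2 * h + 1) * (3 * r) := Nat.mul_le_mul_right _ hh1
      have h7 : r ^ 3 * (3 * r) = 3 * r ^ 4 := by ring
      have h8 : (2 * h + 1) * (3 * r) = 2 * (h * (3 * r)) + 3 * r := by ring
      have h9 : (r + 1) ^ 4 = r ^ 4 + 4 * r ^ 3 + 6 * r ^ 2 + 4 * r + 1 := by ring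
      rw [h7, h8] at h6
      rw [h9] at h5
      omega
    · rw [← hh]
      have h6 : (4 * m) ^ 2 * (3 * r) ≤ r ^ 2 * (3 * r) :=
        Nat.mul_le_mul_right _ (Nat.pow_le_pow_left hm1 2)
      have h7 : (4 * m) ^ 2 * (3 * r) = 16 * (m ^ 2 * (3 * r)) := by ring
      have h8 : r ^ 2 * (3 * r) = 3 * r ^ 3 := by ring
      rw [h7, h8] at h6
      omega
    · omega
    · have h6 : (r : ℝ) < 4 * (m : ℝ) + 4 := by exact_mod_cast hm2
      have h7 : (200 : ℝ) ≤ (r : ℝ) := by exact_mod_cast hr200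
      linarith

end Pool.Agent.H493R3.NL.Num2
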