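import Pool.Agent.H181R5.NLT.Stmts

set_option autoImplicit false

namespace Pool.Agent.H493R3.NL.TPath

open Finset Pool.Agent.H181R5.NLH Pool.Agent.H181R5.NLT

open Classical in
/-- the sets of the breadth first search in `T` from `a` -/
noncomputable def R {V : Type} (D : V → V → Prop) (T : Finset V) (a : V) : ℕ → Finset V
  | 0 => {a}
  | (i + 1) => R D T a i ∪ T.filter (fun y => ∃ x ∈ R D T a i, D x y)

section

variable {V : Type} (D : V → V → Prop) (T : Finset V) (a : V)

theorem R_zero (y : V) : y ∈ R D T a 0 ↔ y = a := by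
  rw [R, Finset.mem_singleton]

open Classical in
theorem R_succ (i : ℕ) (y : V) : y ∈ R D T a (i + 1) ↔
    y ∈ R D T a i ∨ (y ∈ T ∧ ∃ x ∈ R D T a i, D x y) := by
  rw [R, Finset.mem_union, Finset.mem_filter]

theorem R_mono_succ (i : ℕ) : R D T a i ⊆ R D T a (i + 1) := by
  intro y hy
  rw [R_succ]
  exact Or.inl hy

theorem R_mono {i j : ℕ} (h : i ≤ j) : R D T a i ⊆ R D T a j := by
  induction j, h using Nat.le_induction with
  | base => exact Finset.Subset.refl _
  | succ j _ ih => exact ih.trans (R_mono_succ D T a j)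

theorem a_mem (i : ℕ) : a ∈ R D T a i :=
  R_mono D T a (Nat.zero_le i) ((R_zero D T a a).2 rfl)

theorem R_sub (ha : a ∈ T) (i : ℕ) : R D T a i ⊆ T := by
  induction i with
  | zero =>
    intro y hy
    rw [R_zero] at hy
    rw [hy]
    exact ha
  | succ i ih =>
    intro y hy
    rw [R_succ] at hy
    rcases hy with hy | hy
    · exact ih hy
    · exact hy.1

/-- the path to a vertex of level `i` -/
theorem walk (i : ℕ) : ∀ y : V, y ∈ R D T a i → (∀ j, j < i → y ∉ R D T a j) →
    ∃ p : ℕ → V, p 0 = a ∧ p i = y ∧ (∀ t, t < i → D (p t) (p (t + 1))) ∧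
      (∀ t, t ≤ i → p t ∈ R D T a t ∧ ∀ j, j < t → p t ∉ R D T a j) := by
  induction i with
  | zero =>
    intro y hy _
    rw [R_zero] at hy
    refine ⟨fun _ => a, rfl, hy.symm, fun t ht => absurd ht (Nat.not_lt_zero t), ?_⟩
    intro t ht
    have h0 : t = 0 := Nat.le_zero.1 ht
    subst h0
    exact ⟨(R_zero D T a a).2 rfl, fun j hj => absurd hj (Nat.not_lt_zero j)⟩
  | succ i ih =>
    intro y hy hn
    have hyi : y ∉ R D T a i := hn i (Nat.lt_succ_self i)
    have h1 := (R_succ D T a i y).1 hy
    rcases h1 with h1 | ⟨hyT, x, hx, hxy⟩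
    · exact absurd h1 hyi
    · have hxn : ∀ j, j < i → x ∉ R D T a j := by
        intro j hj hxj
        apply hn (j + 1) (Nat.succ_lt_succ hj)
        rw [R_succ]
        exact Or.inr ⟨hyT, x, hxj, hxy⟩
      obtain ⟨p, hp0, hpi, hpD, hpR⟩ := ih x hx hxn
      refine ⟨fun t => if t ≤ i then p t else y, ?_, ?_, ?_, ?_⟩
      · simp [hp0]
      · simp
      · intro t ht
        rcases Nat.lt_succ_iff_lt_or_eq.1 ht with h2 | h2
        · have h3 : t ≤ i := h2.le
          have h4 : t + 1 ≤ i := h2
          simp only [h3, h4, if_true]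
          exact hpD t h2
        · subst h2
          have h3 : ¬ (t + 1 ≤ t) := by omega
          simp only [le_refl, if_true, h3, if_false]
          rw [hpi]
          exact hxy
      · intro t ht
        by_cases h2 : t ≤ i
        · simp only [h2, if_true]
          exact hpR t h2
        · have h3 : t = i + 1 := by omega
          subst h3
          simp only [h2, if_false]
          exact ⟨hy, hn⟩

end

theorem result : TaskPath := by
  intro V _ _ D S U k L a b hK hcard hUS hU ha hb hab
  have haS : a ∈ S := (Finset.mem_sdiff.1 ha).1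
  have step : ∀ i, b ∉ R D (S \ U) a (i + 1) →
      (R D (S \ U) a i).card + k / 2 ≤ (R D (S \ U) a (i + 1)).card := by
    intro i hbi
    have hRS : ∀ j, R D (S \ U) a j ⊆ S := fun j =>
      (R_sub D (S \ U) a ha j).trans Finset.sdiff_subset
    have hk : k ≤ (S \ (((S \ U) \ R D (S \ U) a (i + 1)) ∪ R D (S \ U) a i)).card := by
      by_contra hlt
      push Not at hlt
      obtain ⟨x, hx, y, hy, hxy⟩ := hK ((S \ U) \ R D (S \ U) a (i + 1)) (R D (S \ U) a i)
        (Finset.sdiff_subset.trans Finset.sdiff_subset) (hRS i)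
        (by
          rw [Finset.disjoint_left]
          intro z hz hz2
          exact (Finset.mem_sdiff.1 hz).2 (R_mono_succ D (S \ U) a i hz2))
        ⟨b, Finset.mem_sdiff.2 ⟨hb, hbi⟩⟩ ⟨a, a_mem D (S \ U) a i⟩ hlt
      rw [Finset.mem_sdiff] at hy
      apply hy.2
      rw [R_succ]
      exact Or.inr ⟨hy.1, x, hx, hxy⟩
    have hsub : S \ (((S \ U) \ R D (S \ U) a (i + 1)) ∪ R D (S \ U) a i) ⊆
        U ∪ (R D (S \ U) a (i + 1) \ R D (S \ U) a i) := by
      intro z hz
      simp only [Finset.mem_sdiff, Finset.mem_union, not_or, not_and, not_not] at hz ⊢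
      by_cases hzU : z ∈ U
      · exact Or.inl hzU
      · exact Or.inr ⟨hz.2.1 ⟨hz.1, hzU⟩, hz.2.2⟩
    have h1 := Finset.card_le_card hsub
    have h2 := Finset.card_union_le U (R D (S \ U) a (i + 1) \ R D (S \ U) a i)
    have h3 := Finset.card_sdiff_add_card_eq_card (R_mono_succ D (S \ U) a i)
    omega
  have hbL : b ∈ R D (S \ U) a L := by
    by_contra hn
    have hall : ∀ i, i ≤ L → b ∉ R D (S \ U) a i := fun i hi hbi =>
      hn (R_mono D (S \ U) a hi hbi)
    have hgrow : ∀ i, i ≤ L → 1 + i * (k / 2) ≤ (R D (S \ U) a i).card := by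
      intro i
      induction i with
      | zero =>
        intro _
        have := Finset.card_pos.2 ⟨a, a_mem D (S \ U) a 0⟩
        omega
      | succ i ih =>
        intro hi
        have h1 := ih (by omega)
        have h2 := step i (hall (i + 1) hi)
        have h3 : (i + 1) * (k / 2) = i * (k / 2) + k / 2 := by ring
        omega
    have h1 := hgrow L le_rfl
    have h2 := Finset.card_le_card ((R_sub D (S \ U) a ha L).trans Finset.sdiff_subset :
      R D (S \ U) a L ⊆ S)
    have h3 : L * (k / 2) = (k / 2) * L := Nat.mul_comm _ _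
    omega
  classical
  have hex : ∃ n, b ∈ R D (S \ U) a n := ⟨L, hbL⟩
  obtain ⟨n, hn, hmin⟩ : ∃ n, b ∈ R D (S \ U) a n ∧ ∀ j, j < n → b ∉ R D (S \ U) a j :=
    ⟨Nat.find hex, Nat.find_spec hex, fun j hj => Nat.find_min hex hj⟩
  have hnL : n ≤ L := by
    by_contra h
    push Not at h
    exact hmin L h hbL
  have hn1 : 1 ≤ n := by
    rcases Nat.eq_zero_or_pos n with h | h
    · subst h
      rw [R_zero] at hn
      exact absurd hn.symm hab
    · exact h
  obtain ⟨p, hp0, hpn, hpD, hpR⟩ := walk D (S \ U) a n b hn hmin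
  refine ⟨n, p, hn1, hnL, hp0, hpn, hpD, ?_, ?_⟩
  · intro t ht
    exact R_sub D (S \ U) a ha t (hpR t ht).1
  · intro t t' ht ht' he
    rcases lt_trichotomy t t' with h | h | h
    · exfalso
      apply (hpR t' ht').2 t h
      rw [← he]
      exact (hpR t ht).1
    · exact h
    · exfalso
      apply (hpR t ht).2 t' h
      rw [he]
      exact (hpR t' ht').1

end Pool.Agent.H493R3.NL.TPath
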